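import Mathlib
import Pool.Agent.K1H15.MT.Alt

/-!
# One class on the fourth power decides the Mumford-Tate conjecture for abelian varieties

Let `A` be an abelian variety over a number field `L` embedded in the complex numbers and `ℓ` a prime
number. For all `n` and `j` let `𝓗(n, j)` and `𝓣(n, j)` be the subspaces of `H^{2j}(A^n, ℚ_ℓ)(j)`
generated by the Hodge classes and by the Tate classes. We prove that there is ONE class `Θ` in
`H^4(A^4, ℚ_ℓ)(2)`, fixed by the whole Galois group of `L`, such that the Mumford-Tate conjecture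

  `𝓗(n, j) = 𝓣(n, j)` for all powers `A^n` and all degrees `2 j`

is true if and only if `Θ` is a combination of Hodge classes. In particular the conjecture for all
powers and all degrees follows from the equality `𝓗(4, 2) = 𝓣(4, 2)` for the classes of codimension
two on the fourth power. There is no condition on the abelian variety (all types of endomorphism
algebras are allowed), and no condition on Frobenius elements.

The class `Θ` is the Casimir element of the Lie algebra `𝔤` of the operators annihilating all Tate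
classes. The library (`Pool.Agent.W516.MT.Main2`) contains the statement under three unproved
assumptions: the commutant of `𝔤` is `End(A) ⊗ ℚ_ℓ`, a property of `𝔤` coming from `p`-adic Hodge
theory, and a theorem of Rosati type. The steps added here make it unconditional (they need no
`p`-adic analysis and hold for every group `Γ`):

* (`Pool.Agent.K1H15.MT.almost_of_comm`) the commutant of `𝔤` consists of the operators which commute
  with a subgroup of finite index of the Galois group. Let `C` be the commutant and `E` the space of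
  the latter operators. The operators acting as `θ(β)` on the generalized eigenspaces of an element
  `g` of the group, for additive functions `θ`, belong to `𝔤` up to scalars, so the eigenvalues of
  the conjugation by `g` on `C` are roots of unity of bounded order; if `C ≠ E`, a theorem of
  Burnside type gives an element `φ` of `C` outside `E` with `g φ g⁻¹ - φ ∈ E` for the `g` in a
  subgroup of finite index, and the trace form of the semisimple algebra `E` gives `φ ∈ E`;
* (`Pool.Agent.K1H15.MT.nondegT`) the trace form of `𝔤` is nondegenerate.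

In the Lean statement `W` is `H_1(A, ℚ)`, `T` the tangent space at the origin and `per : W → T` the
inclusion, `ω₀` is the form given by a polarization; `ℚ_ℓ ⊗ W` is the rational Tate module with the
action `ρ` of the Galois group `Γ` and the Weil pairing `ω`; `χ` is the cyclotomic character. The
hypotheses `hss`, `hF` are the theorems of Faltings, `hD` is the theorem of Deligne and `hC` the
theorem on centres (the Mumford-Tate conjecture is true for the centres; Vasiu, Ullmo-Yafaev).
-/

namespace Pool.Agent.Results.MP_6c781a_ag.OneClassOnFourthPower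

open TensorProduct Pool.Agent.H204R3.GP Pool.Agent.W516.MTD Pool.Agent.K1H15.MT

/-- One class in `H^4(A^4)(2)`, fixed by the Galois group, decides the Mumford-Tate conjecture for
all powers of the abelian variety `A`. -/
theorem result (ℓ : ℕ) [Fact ℓ.Prime]
    -- the complex torus `A(ℂ)` with a polarization
    {W T : Type} [AddCommGroup W] [Module ℚ W] [FiniteDimensional ℚ W] [AddCommGroup T]
    [Module ℂ T] (per : W →+ T) (hper : IsRationalStructure per)
    (ω₀ : W →ₗ[ℚ] W →ₗ[ℚ] ℚ) (hω₀ : IsHodgeBilinear per ω₀)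
    -- the Galois group, its action on the Tate module and the Weil pairing
    {Γ : Type} [Group Γ] (ρ : Representation ℚ_[ℓ] Γ (ℚ_[ℓ] ⊗[ℚ] W)) (χ : Γ →* ℚ_[ℓ])
    (ω : ℚ_[ℓ] ⊗[ℚ] W →ₗ[ℚ_[ℓ]] ℚ_[ℓ] ⊗[ℚ] W →ₗ[ℚ_[ℓ]] ℚ_[ℓ])
    (hωω : ∀ u v : W, ω ((1 : ℚ_[ℓ]) ⊗ₜ[ℚ] u) ((1 : ℚ_[ℓ]) ⊗ₜ[ℚ] v) = ((ω₀ u v : ℚ) : ℚ_[ℓ]))
    (hnd : ∀ u, (∀ v, ω u v = 0) → u = 0)
    (hωρ : ∀ s u v, ω (ρ s u) (ρ s v) = χ s * ω u v)
    -- the theorems of Faltings and Deligne and the theorem on centres
    (hss : FiniteIndexSemisimple ρ) (hF : Faltings per ρ) (hD : Deligne per ρ χ)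
    (hC : Centres per ρ χ) :
    ∃ Θ : (Fin 4 → ℚ_[ℓ] ⊗[ℚ] W) [⋀^Fin 2 × Fin 2]→ₗ[ℚ_[ℓ]] ℚ_[ℓ],
      (∀ s (v : Fin 2 × Fin 2 → Fin 4 → ℚ_[ℓ] ⊗[ℚ] W),
        Θ (fun l i => ρ s (v l i)) = χ s ^ 2 * Θ v) ∧
      (Θ ∈ hodgeSpace ℚ_[ℓ] per 4 2 ↔
        ∀ n j : ℕ, hodgeSpace ℚ_[ℓ] per n j = tateSpace ρ χ n j) := by
  obtain ⟨θ, hθ, hall⟩ := exists_decisive per ρ χ ω₀ ω hω₀
    (fun u v => by rw [hωω, eq_ratCast]) hωρ hD hper hnd hss (Pool.Agent.K1H13.N.bdd_bcr ρ) hF hC
  have hinv : ∀ s (v : Fin 2 × Fin 2 → Fin 4 → ℚ_[ℓ] ⊗[ℚ] W),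
      aI (⇑Pool.Agent.K1H13.N.cc) θ (fun l i => ρ s (v l i)) =
        χ s ^ 2 * aI (⇑Pool.Agent.K1H13.N.cc) θ v := by
    intro s v
    rw [aI_apply, aI_apply, Finset.mul_sum]
    refine Finset.sum_congr rfl fun σ _ => ?_
    rw [hθ s fun l => v (σ l) (Pool.Agent.K1H13.N.cc l)]
    ring
  refine ⟨aI (⇑Pool.Agent.K1H13.N.cc) θ, hinv, fun h n j => ?_, fun h => ?_⟩
  · refine le_antisymm (hodge_le_tate hD) fun f hf => ?_
    have h1 := rsI_comb (⇑Pool.Agent.K1H13.N.cc) h
    rw [rs_aI] at h1
    exact mem_of_rsI fun I => hall h1 j _ (tate_rsI I (mem_tate.1 hf))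
  · rw [h 4 2]
    exact mem_tate.2 ⟨⊤, inferInstance, fun s _ v => hinv s v⟩

end Pool.Agent.Results.MP_6c781a_ag.OneClassOnFourthPower
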