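import Mathlib
import Pool.Agent.K1H15.HG.Main

/-!
# One Hodge class of degree four decides whether all Hodge classes are Tate classes

Let `Y` be an arbitrary smooth projective variety over a number field `L ⊂ ℂ`. One half of the
Mumford-Tate conjecture is the inclusion `𝓗 ⊆ 𝓣`: for all `j` and `k` the images of the Hodge
classes on `Y ^ k` in the `ℓ`-adic cohomology are Tate classes. It is the theorem of Deligne for abelian
varieties, and open in general.

Let `W` be a pure polarized rational Hodge structure of weight `w` in the cohomology of `Y`, with the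
action `ρ` of the Galois group `Γ` on `ℚ_ℓ ⊗ W`: for example `W = H^i(Y, ℚ)`, or the sum of all
`H^{2a}(Y, ℚ)(a)`, of weight `0`. The rational forms in `2m` variables on `W` are, by the
polarization, the classes in `W^{⊗ 2m}(mw)`. If `Y` has no cohomology in odd degrees and `W` is the sum
of the `H^{2a}(Y, ℚ)(a)`, these are all classes in the groups `H^{2j}(Y ^ {2m}, ℚ)(j)`.

The theorem. Only from the Hodge structure `W`, for all `ℓ`, all number fields `L` and all models `Y`
over `L` at the same time, one obtains

* **one** Hodge class `Θ` in `W^{⊗ 4}(2w)` (the Casimir element of the Hodge Lie algebra), and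
* a list `L` of at most `dim Z` Hodge classes, where `Z` is the space of the elements of the centre of
  `End_HS(W)` which are skew for the polarization; `Z = 0` if there is no factor of type IV,

such that **all Hodge classes on all tensor powers of `W` are Tate classes if and only if the Hodge
classes in `W ⊗ W` (that is, the Hodge endomorphisms of `W`), the class `Θ` and the classes in the list
are Tate classes**. If `End_HS(W) = ℚ`, this is the question for the single class `Θ` (for the
polarization itself it is known, it is given by an algebraic cycle).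

It is not assumed that the Galois representation is semisimple, nor anything about the weights or
the action of the Frobenius elements; the group `Γ` and its representation are arbitrary.

The proof. Let `𝔥` be the Lie algebra of the endomorphisms of `W` which kill all Hodge classes. Forms
killed by `𝔥` are Hodge classes (the operator giving the Hodge decomposition is in `ℂ ⊗ 𝔥`), and the
trace form is nondegenerate on `𝔥`, because the adjoint of `X ∈ 𝔥` for the positive hermitian form given
by the polarization is in `ℂ ⊗ 𝔥` (`hl_nondeg`). Let `𝔤` be the Lie algebra of the endomorphisms of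
`ℚ_ℓ ⊗ W` which kill all Tate classes. If `Θ` and the Hodge endomorphisms are Tate classes, then the
rational components of an element of `𝔤` normalise `𝔥`; up to `𝔥` they commute with `𝔥` and with all
Hodge endomorphisms, and are skew, so they are in `Z`, and by the choice of the list in `𝔥`. Hence `𝔤`
kills all Hodge classes, and a form killed by `𝔤` is a Tate class by the theorem
`Pool.Agent.K1H15.P1.tate_of_kills`, valid for every group.
-/

set_option autoImplicit false

namespace Pool.Agent.Results.MP_6c781a_ag.OneHodgeClass

open Module TensorProduct Pool.Agent.K1H15.HG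

/-- Whether all Hodge classes on the tensor powers of a polarized Hodge structure are Tate classes is
decided by the Hodge endomorphisms, one Hodge class `Θ` in four variables and at most
`dim H.centralSkew` further Hodge classes; all depend only on the Hodge structure. -/
theorem result {W : Type} [AddCommGroup W] [Module ℚ W] [FiniteDimensional ℚ W] {w : ℤ}
    (H : PolarizedHodge W w) :
    ∃ (Θ : Form W 2) (L : List (Σ m : ℕ, Form W m)),
      H.IsHodge 2 Θ ∧ (∀ φ ∈ L, H.IsHodge φ.1 φ.2) ∧ L.length ≤ finrank ℚ H.centralSkew ∧
      ∀ (ℓ : ℕ) [Fact ℓ.Prime] (Γ : Type) [Group Γ]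
        (ρ : Representation ℚ_[ℓ] Γ (ℚ_[ℓ] ⊗[ℚ] W)) (χ : Γ →* ℚ_[ℓ]),
        (∀ (m : ℕ) (φ : Form W m), H.IsHodge m φ → IsTateOver ρ χ φ) ↔
          (∀ φ : Form W 1, H.IsHodge 1 φ → IsTateOver ρ χ φ) ∧ IsTateOver ρ χ Θ ∧
            ∀ φ ∈ L, IsTateOver ρ χ φ.2 := by
  obtain ⟨L, hL1, hL2, hL3⟩ := exists_list H _ H.centralSkew le_rfl
  have hΘ : H.IsHodge 2 (Pool.Agent.W516.KC2.casimir (hl H) (hl_nondeg H) H.form) :=
    hodge_of_kills H fun X hX => Pool.Agent.W516.KC2.casimir_kills _ _ _ (hl_skew H hX)
      fun X' hX' => hl_bracket H hX hX'
  refine ⟨Pool.Agent.W516.KC2.casimir (hl H) (hl_nondeg H) H.form, L, hΘ, hL1, hL2, ?_⟩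
  intro ℓ _ Γ _ ρ χ
  constructor
  · intro h
    exact ⟨h 1, h 2 _ hΘ, fun φ hφ => h _ _ (hL1 φ hφ)⟩
  · rintro ⟨h1, h2, h3⟩ m φ hφ
    exact main L hL3 hL1 h1 h2 h3 hφ

end Pool.Agent.Results.MP_6c781a_ag.OneHodgeClass
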