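import Pool.Agent.K1H14.SD.Final
import Pool.Agent.K1H92.SD.Conv

/-!
# MP_6c781a_ag: the Mumford-Tate conjecture for abelian varieties with spin monodromy

Let `B` be an abelian variety over a number field whose `ℓ`-adic monodromy group is `GSpin(T)`,
acting on `V_ℓ(B) ⊗ ℂ = W Q = C⁺(T)` by left multiplication, `T` of odd dimension `≥ 7`
(every abelian variety whose `V_ℓ` is a multiple of the spin representation has a power of which
some power is of this kind).  Let `A n` be the spans of the Hodge classes in `H¹(B)^{⊗ n}`.

**The Mumford-Tate conjecture holds for all powers of `B`, in all degrees, if and only if there is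
one Hodge class on one power of `B` which is not killed by one test element**: an arbitrary
skew element of `C⁺(T)` if `dim T` is one modulo four (so the class is any class which is not in
the ring generated by divisor classes up to the connected component), an element `v * z` with `v`
a vector and `z` central if `dim T` is three modulo four.
-/

set_option autoImplicit false

namespace Pool.Agent.Results.MP_6c781a_ag.SpinMonodromy

open Pool.Agent.K1H14.KS Pool.Agent.K1H14.SD CliffordAlgebra

universe u

/-- **One exceptional class gives all Tate classes** (and there are exceptional Tate classes). -/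
theorem result {T : Type u} [AddCommGroup T] [Module ℂ T] (Q : QuadraticForm ℂ T)
    (hQ : ∀ t : T, (∀ s : T, QuadraticMap.polar Q s t = 0) → t = 0)
    (hd : Odd (Module.finrank ℂ T)) (h7 : 7 ≤ Module.finrank ℂ T)
    (A : ∀ n : ℕ, Submodule ℂ (WForm Q n)) (hA : IsMotivicW A) :
    (∃ (n : ℕ) (f : WForm Q n) (x : W Q), f ∈ A n ∧ IsTest x ∧
      ¬ Kills (LinearMap.mulLeft ℂ x) f) ↔
    ∀ (n : ℕ) (f : WForm Q n), IsTate f → f ∈ A n := by
  constructor
  · intro hX
    exact tate_final hQ hd (by omega) hA hX
  · intro h
    obtain ⟨f, x, hf, hx, hk⟩ := Pool.Agent.K1H92.SD.t_CONV Q hQ hd h7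
    exact ⟨4, f, x, h 4 f hf, hx, hk⟩

end Pool.Agent.Results.MP_6c781a_ag.SpinMonodromy
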