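import Pool.Agent.K1H13.Z.MTLaw

/-!
# A zero-one law for the `ℓ`-adic Mumford-Tate conjecture

For a smooth projective variety `Y` the Hodge classes and the Tate classes on the powers of `Y` are
compared. Write `𝓗` and `𝒯` for the spaces spanned, over the `ℓ`-adic coefficients, by the Hodge
classes and by the Tate classes on a power `Y^n`, and `ρ` for the rank of the intersection form on
`𝓗 ∩ 𝒯`. We prove: either `𝓗 = 𝒯` on all powers of `Y`, in all degrees (the conjecture for `Y`), or
`ρ / dim (𝓗 + 𝒯)` tends to `0` as `n` tends to infinity. Both inclusions obey such a law.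
-/

open CategoryTheory AlgebraicGeometry

universe u

namespace Pool.Agent.Results.MP_6c781a_ag.ZeroOneLaw

open Pool.Agent.H914 Pool.Agent.Y133.Half Pool.Agent.K1H13.Z

variable {k : Type u} [Field k] {𝒱 : VarClass k} {ops : CycleOps 𝒱}

/-- **The zero-one law.** -/
theorem result (H : HodgeTate ops) (Y : 𝒱.Obj) :
    -- (1) Mumford-Tate for `Y`, or the common part of `𝓗` and `𝒯` is negligible
    ((H.MumfordTate Y ∧ ∀ n, H.commonRank (pw Y n) = H.sumDim (pw Y n)) ∨
      Negligible (fun n => H.commonRank (pw Y n)) fun n => H.sumDim (pw Y n)) ∧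
    -- (2) Hodge classes are Tate classes, or the common part is negligible in `𝓗`
    (H.HodgeAreTate Y ∨ Negligible (fun n => H.commonRank (pw Y n)) fun n => H.hdgDim (pw Y n)) ∧
    -- (3) Tate classes are combinations of Hodge classes, or the common part is negligible in `𝒯`
    (H.TateAreHodge Y ∨ Negligible (fun n => H.commonRank (pw Y n)) fun n => H.tateDim (pw Y n)) ∧
    -- (4) the case in which all Hodge classes are Tate classes (for example abelian varieties)
    (H.HodgeAreTate Y →
      ((H.MumfordTate Y ∧ ∀ n, H.hdgDim (pw Y n) = H.tateDim (pw Y n)) ∨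
        Negligible (fun n => H.hdgDim (pw Y n)) fun n => H.tateDim (pw Y n))) ∧
    -- (5) bounds for the common part
    (∀ n, H.cycleDim (pw Y n) ≤ H.rationalDim (pw Y n) ∧
      H.rationalDim (pw Y n) ≤ H.commonRank (pw Y n)) :=
  mt_law H Y

end Pool.Agent.Results.MP_6c781a_ag.ZeroOneLaw
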